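import Pool.Agent.TH346.CG.Defs2
import Pool.Agent.TH521.CG.Pick

/-!
# GSD-PICK: a structured large subset of `A \ V`, for sets which need not be sum-free
-/

set_option autoImplicit false

open Finset
open scoped Pointwise

namespace Pool.Agent.TH720.CG

open Pool.Agent.TH346.CG Pool.Agent.TH521.CG

/-- energy from a pair count -/
theorem energy2 {Γ : Type} [AddCommGroup Γ] [DecidableEq Γ] (X : Finset Γ) (hX : X.Nonempty)
    (q : ℕ) (h : X.card ^ 2 ≤ q * ((X ×ˢ X).filter (fun p => p.1 + p.2 ∈ X)).card) :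
    X.card ^ 3 ≤ q ^ 2 * X.addEnergy X := by
  classical
  set r : Γ → ℕ := fun s => ((X ×ˢ X).filter (fun p => p.1 + p.2 = s)).card with hr
  have hC : ((X ×ˢ X).filter (fun p => p.1 + p.2 ∈ X)).card = ∑ s ∈ X, r s := by
    have h0 := Finset.card_eq_sum_card_fiberwise (f := fun p : Γ × Γ => p.1 + p.2)
      (s := (X ×ˢ X).filter (fun p => p.1 + p.2 ∈ X)) (t := X)
      (fun p hp => by
        rw [Finset.mem_coe, Finset.mem_filter] at hp
        exact Finset.mem_coe.2 hp.2)
    rw [h0]
    refine Finset.sum_congr rfl fun s hs => ?_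
    rw [Finset.filter_filter]
    congr 1
    refine Finset.filter_congr fun p _ => ?_
    constructor
    · exact fun h0 => h0.2
    · intro h0
      exact ⟨by rw [h0]; exact hs, h0⟩
  have hE : ∑ s ∈ X, r s ^ 2 ≤ X.addEnergy X := by
    rw [Finset.addEnergy_eq_sum_sq']
    have h1 : ∑ s ∈ X, r s ^ 2 = ∑ s ∈ X ∩ (X + X), r s ^ 2 := by
      symm
      refine Finset.sum_subset Finset.inter_subset_left fun s hs hs' => ?_
      have h2 : r s = 0 := by
        rw [hr]
        simp only [Finset.card_eq_zero, Finset.filter_eq_empty_iff]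
        intro p hp hps
        rw [Finset.mem_product] at hp
        apply hs'
        rw [Finset.mem_inter]
        exact ⟨hs, by rw [← hps]; exact Finset.add_mem_add hp.1 hp.2⟩
      rw [h2]
      norm_num
    rw [h1]
    exact Finset.sum_le_sum_of_subset Finset.inter_subset_right
  have hcs : (∑ s ∈ X, r s) ^ 2 ≤ X.card * ∑ s ∈ X, r s ^ 2 := sq_sum_le_card_mul_sum_sq
  rw [hC] at h
  have h1 : X.card * X.card ^ 3 ≤ X.card * (q ^ 2 * X.addEnergy X) := by
    calc X.card * X.card ^ 3 = (X.card ^ 2) ^ 2 := by ring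
      _ ≤ (q * ∑ s ∈ X, r s) ^ 2 := Nat.pow_le_pow_left h 2
      _ = q ^ 2 * (∑ s ∈ X, r s) ^ 2 := by ring
      _ ≤ q ^ 2 * (X.card * ∑ s ∈ X, r s ^ 2) := Nat.mul_le_mul_left _ hcs
      _ ≤ q ^ 2 * (X.card * X.addEnergy X) :=
        Nat.mul_le_mul_left _ (Nat.mul_le_mul_left _ hE)
      _ = X.card * (q ^ 2 * X.addEnergy X) := by ring
  exact Nat.le_of_mul_le_mul_left h1 hX.card_pos

theorem pick' (M K k L : ℕ) : ∃ c K' k' : ℕ, ∀ (Γ : Type) [AddCommGroup Γ] [Fintype Γ]
    [DecidableEq Γ] (A V : Finset Γ), -A = A → -V = V → 0 ∈ V →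
    P M A {0} → Cov A K k L V → (A \ V).Nonempty →
    ∃ (B B₀ : Finset Γ) (g : Γ), B ⊆ A \ V ∧ B.Nonempty ∧ (A \ V).card ≤ c * B.card ∧
      B₀ ⊆ A ∧ B₀.Nonempty ∧ (B₀ - B₀).card ≤ K' * B₀.card ∧
      ∀ b ∈ B, b - g ∈ ks k' (B₀ - B₀) := by
  classical
  set q : ℕ := 3 ^ M * (L + 1) with hq
  have hq1 : 1 ≤ q := Nat.one_le_iff_ne_zero.mpr (by positivity)
  refine ⟨8 * q ^ 2, K + 2 ^ 22 * q ^ 20, k + 1, ?_⟩
  have hqq : q ≤ q ^ 2 := Nat.le_self_pow (by norm_num) q
  have hq10 : q ^ 10 ≤ q ^ 20 := Nat.pow_le_pow_right hq1 (by norm_num)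
  intro Γ _ _ dΓ A V hA hV h0 hP hcov hne
  obtain ⟨s, hsL, hs, hcovs⟩ := hcov
  set X : Finset Γ := A \ V with hX
  have hXneg : -X = X := by
    ext x
    rw [Finset.mem_neg', hX, mem_sdiff, mem_sdiff]
    have e1 : -x ∈ A ↔ x ∈ A := by
      rw [← Finset.mem_neg', hA]
    have e2 : -x ∈ V ↔ x ∈ V := by
      rw [← Finset.mem_neg', hV]
    rw [e1, e2]
  set T : Finset (Fin M → Γ) := Fintype.piFinset (fun _ : Fin M => X) with hT
  have hTne : T.Nonempty := by
    obtain ⟨x, hx⟩ := hne
    exact ⟨fun _ => x, Fintype.mem_piFinset.mpr fun _ => hx⟩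
  have hTcard : T.card = X.card ^ M := by
    rw [hT, Fintype.card_piFinset]
    simp
  have hN1 : 1 ≤ X.card := hne.card_pos
  set S : (Fin M → SignType) → (Fin M → Γ) → Γ := fun ε a => ∑ i, ((ε i : SignType) : ℤ) • a i
    with hS
  -- the sets of the pigeonhole
  set f : ((Fin M → SignType) × Option (Γ × Finset Γ)) → Finset (Fin M → Γ) := fun z =>
    T.filter (fun a => 2 ≤ (univ.filter (fun i => z.1 i ≠ 0)).card ∧
      match z.2 with
      | none => S z.1 a ∈ X
      | some p => S z.1 a - p.1 ∈ ks k (p.2 - p.2)) with hf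
  have hpig : ∃ z ∈ (univ : Finset (Fin M → SignType)) ×ˢ (Finset.insertNone s),
      T.card ≤ q * (T ∩ f z).card := by
    apply pig T _ f q hTne
    · intro a ha
      have ha' := Fintype.mem_piFinset.mp ha
      obtain ⟨ε, hε2, hε⟩ := hP a (fun i => by
        have := ha' i
        rw [hX, mem_sdiff] at this
        refine ⟨this.1, fun h => this.2 ?_⟩
        rw [mem_singleton] at h
        rw [h]
        exact h0)
      have hε' : S ε a ∈ X ∨ S ε a ∈ V := by
        rw [mem_union, mem_singleton] at hε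
        by_cases hv : S ε a ∈ V
        · exact Or.inr hv
        · rcases hε with h | h
          · left
            rw [hX, mem_sdiff]
            exact ⟨h, hv⟩
          · exact absurd (by rw [show S ε a = 0 from h]; exact h0) hv
      rcases hε' with h | h
      · refine ⟨(ε, none), ?_, ?_⟩
        · rw [mem_product]
          exact ⟨mem_univ _, by simp⟩
        · rw [hf]
          simp only [mem_filter]
          exact ⟨ha, hε2, h⟩
      · obtain ⟨p, hp, hpx⟩ := hcovs _ h
        refine ⟨(ε, some p), ?_, ?_⟩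
        · rw [mem_product]
          exact ⟨mem_univ _, by simpa using hp⟩
        · rw [hf]
          simp only [mem_filter]
          exact ⟨ha, hε2, hpx⟩
    · rw [card_product, Finset.card_insertNone, hq]
      have : (univ : Finset (Fin M → SignType)).card = 3 ^ M := by
        rw [Finset.card_univ, Fintype.card_fun, Fintype.card_fin]
        rfl
      rw [this]
      exact Nat.mul_le_mul_left _ (by omega)
  obtain ⟨⟨ε, tag⟩, hz, hzc⟩ := hpig
  have hTf : T ∩ f (ε, tag) = f (ε, tag) := by
    rw [hf]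
    exact inter_eq_right.mpr (filter_subset _ _)
  rw [hTf] at hzc
  have hTpos : 0 < T.card := hTne.card_pos
  have hfne : (f (ε, tag)).Nonempty := by
    rw [← card_pos]
    by_contra hcon
    have : (f (ε, tag)).card = 0 := by omega
    rw [this] at hzc
    omega
  obtain ⟨a₀, ha₀⟩ := hfne
  have hsupp : 2 ≤ (univ.filter (fun i => ε i ≠ 0)).card := by
    rw [hf] at ha₀
    simp only [mem_filter] at ha₀
    exact ha₀.2.1
  cases tag with
  | some p =>
    have hp : p ∈ s := by
      rw [mem_product] at hz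
      simpa using hz.2
    obtain ⟨hpA, hpne, hpK⟩ := hs p hp
    obtain ⟨i₀, hi₀⟩ : ∃ i₀, ε i₀ ≠ 0 := by
      have : (univ.filter (fun i => ε i ≠ 0)).Nonempty := by
        rw [← card_pos]; omega
      obtain ⟨i, hi⟩ := this
      exact ⟨i, (mem_filter.mp hi).2⟩
    set F : (Fin M → Γ) → ℕ := fun a => if S ε a - p.1 ∈ ks k (p.2 - p.2) then 1 else 0 with hF
    have hFsum : (f (ε, some p)).card ≤ ∑ a ∈ T, F a := by
      rw [hF, ← card_filter]
      apply card_le_card
      intro a ha
      rw [hf] at ha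
      simp only [mem_filter] at ha ⊢
      exact ⟨ha.1, ha.2.2⟩
    have havg := avg X i₀ F
    obtain ⟨a, haT, ha⟩ := exists_of_sum T (fun a => ∑ x ∈ X, F (Function.update a i₀ x)) q X.card
      hTne (by
        rw [hT, havg, ← hT]
        calc T.card * X.card ≤ (q * ∑ a ∈ T, F a) * X.card :=
              Nat.mul_le_mul_right _ (hzc.trans (Nat.mul_le_mul_left _ hFsum))
          _ = q * (X.card * ∑ a ∈ T, F a) := by ring)
    have hBc : ∑ x ∈ X, F (Function.update a i₀ x) =
        (X.filter (fun x => S ε (Function.update a i₀ x) - p.1 ∈ ks k (p.2 - p.2))).card := by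
      rw [hF, ← card_filter]
    set B : Finset Γ := X.filter (fun x => S ε (Function.update a i₀ x) - p.1 ∈ ks k (p.2 - p.2))
      with hB
    have ha' : X.card ≤ q * B.card := by
      have := ha
      rw [hBc] at this
      exact this
    have hBne : B.Nonempty := by
      rw [← card_pos]
      by_contra hcon
      have : B.card = 0 := by omega
      rw [this] at ha'
      omega
    set rest : Γ := S ε a - ((ε i₀ : SignType) : ℤ) • a i₀ with hrest
    refine ⟨B, p.2, ((ε i₀ : SignType) : ℤ) • (p.1 - rest), filter_subset _ _, hBne, ?_, hpA, hpne,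
      ?_, ?_⟩
    · exact ha'.trans (Nat.mul_le_mul_right _ (by omega))
    · exact hpK.trans (Nat.mul_le_mul_right _ (by omega))
    · intro b hb
      rw [hB, mem_filter] at hb
      have h1 := hb.2
      have h2 : S ε (Function.update a i₀ b) = ((ε i₀ : SignType) : ℤ) • b + rest := by
        rw [hS]
        simp only
        rw [sum_upd]
      rw [h2] at h1
      have hks := neg_ks (neg_diff p.2) k
      have h3 := sgn_mem hks hi₀ h1
      have h4 : ((ε i₀ : SignType) : ℤ) • (((ε i₀ : SignType) : ℤ) • b + rest - p.1) =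
          b - ((ε i₀ : SignType) : ℤ) • (p.1 - rest) := by
        have h5 := sgn_sgn hi₀ b
        rw [show ((ε i₀ : SignType) : ℤ) • b + rest - p.1 =
          ((ε i₀ : SignType) : ℤ) • b - (p.1 - rest) by abel, smul_sub, h5]
      rw [h4] at h3
      exact ks_mono (zero_mem_diff hpne) (Nat.le_succ k) h3
  | none =>
    set F : (Fin M → Γ) → ℕ := fun a => if S ε a ∈ X then 1 else 0 with hF
    have hFsum : (f (ε, none)).card ≤ ∑ a ∈ T, F a := by
      rw [hF, ← card_filter]
      apply card_le_card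
      intro a ha
      rw [hf] at ha
      simp only [mem_filter] at ha ⊢
      exact ⟨ha.1, ha.2.2⟩
    by_cases hsupp3 : 2 < (univ.filter (fun i => ε i ≠ 0)).card
    swap
    · -- the support has two elements
      have h2 : (univ.filter (fun i => ε i ≠ 0)).card = 2 := by omega
      obtain ⟨i, j, hij, hset⟩ := Finset.card_eq_two.mp h2
      have hsum : ∀ b : Fin M → Γ, S ε b =
          ((ε i : SignType) : ℤ) • b i + ((ε j : SignType) : ℤ) • b j := by
        intro b
        rw [hS]
        simp only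
        rw [← Finset.sum_filter_of_ne (p := fun i => ε i ≠ 0) (s := univ)]
        · rw [hset, Finset.sum_pair hij]
        · intro x _ hx hx0
          apply hx
          rw [hx0]
          simp
      have hi : ε i ≠ 0 := by
        have : i ∈ univ.filter (fun i => ε i ≠ 0) := by rw [hset]; simp
        exact (mem_filter.mp this).2
      have hj : ε j ≠ 0 := by
        have : j ∈ univ.filter (fun i => ε i ≠ 0) := by rw [hset]; simp
        exact (mem_filter.mp this).2
      set F1 : (Fin M → Γ) → ℕ := fun a => ∑ y ∈ X, F (Function.update a j y) with hF1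
      set F2 : (Fin M → Γ) → ℕ := fun a => ∑ x ∈ X, F1 (Function.update a i x) with hF2
      have e1 : ∑ a ∈ T, F1 a = X.card * ∑ a ∈ T, F a := avg X j F
      have e2 : ∑ a ∈ T, F2 a = X.card * ∑ a ∈ T, F1 a := avg X i F1
      obtain ⟨a, haT, ha⟩ := exists_of_sum T F2 q (X.card ^ 2) hTne (by
        rw [e2, e1]
        calc T.card * X.card ^ 2 ≤ (q * ∑ a ∈ T, F a) * X.card ^ 2 :=
              Nat.mul_le_mul_right _ (hzc.trans (Nat.mul_le_mul_left _ hFsum))
          _ = q * (X.card * (X.card * ∑ a ∈ T, F a)) := by ring)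
      have hSup : ∀ x y : Γ, S ε (Function.update (Function.update a i x) j y)
          = ((ε i : SignType) : ℤ) • x + ((ε j : SignType) : ℤ) • y := by
        intro x y
        rw [hsum, Function.update_self, Function.update_of_ne hij, Function.update_self]
      have hF2c : F2 a = ((X ×ˢ X).filter (fun p =>
          ((ε i : SignType) : ℤ) • p.1 + ((ε j : SignType) : ℤ) • p.2 ∈ X)).card := by
        rw [card_filter, Finset.sum_product]
        rw [hF2]
        simp only [hF1, hF, hSup]
      have hle : F2 a ≤ ((X ×ˢ X).filter (fun p => p.1 + p.2 ∈ X)).card := by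
        rw [hF2c]
        refine Finset.card_le_card_of_injOn (fun p => (((ε i : SignType) : ℤ) • p.1,
          ((ε j : SignType) : ℤ) • p.2)) ?_ ?_
        · intro p hp
          simp only [coe_filter, mem_product, Set.mem_ofPred_eq] at hp ⊢
          exact ⟨⟨sgn_mem hXneg hi hp.1.1, sgn_mem hXneg hj hp.1.2⟩, hp.2⟩
        · intro p _ p' _ hpp
          simp only [Prod.mk.injEq] at hpp
          obtain ⟨h1, h2⟩ := hpp
          have g1 := sgn_sgn hi p.1
          have g1' := sgn_sgn hi p'.1
          have g2 := sgn_sgn hj p.2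
          have g2' := sgn_sgn hj p'.2
          rw [h1, g1'] at g1
          rw [h2, g2'] at g2
          exact Prod.ext g1.symm g2.symm
      have hen := energy2 X hne q (ha.trans (Nat.mul_le_mul_left _ hle))
      obtain ⟨B, hBX, hBne, hBc, hBB⟩ := Pool.Agent.H217R3.AK.bsg X hne ((q : ℝ) ^ 2)
        (by have : (0 : ℝ) < q := by exact_mod_cast hq1
            positivity) (by exact_mod_cast hen)
      have hBA : B ⊆ A := hBX.trans sdiff_subset
      obtain ⟨g, hg⟩ := id hBne
      refine ⟨B, B, g, hBX, hBne, by exact_mod_cast hBc, hBA, hBne, ?_, ?_⟩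
      · have h1 : (B - B).card ≤ 2 ^ 22 * (q ^ 2) ^ 10 * B.card := by exact_mod_cast hBB
        have e20 : (q ^ 2) ^ 10 = q ^ 20 := by rw [← pow_mul]
        rw [e20] at h1
        exact h1.trans (Nat.mul_le_mul_right _ (by omega))
      · intro b hb
        have h1 : b - g ∈ ks 1 (B - B) := by
          show b - g ∈ ks 0 (B - B) + (B - B)
          show b - g ∈ ({0} : Finset Γ) + (B - B)
          have h2 := Finset.add_mem_add (mem_singleton_self (0 : Γ)) (Finset.sub_mem_sub hb hg)
          simpa using h2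
        exact ks_mono (zero_mem_diff hBne) (by omega) h1
    obtain ⟨i, hi, j, hj, l, hl, hij, hil, hjl⟩ := Finset.two_lt_card.mp hsupp3
    have hi' := (mem_filter.mp hi).2
    have hj' := (mem_filter.mp hj).2
    have hl' := (mem_filter.mp hl).2
    set F1 : (Fin M → Γ) → ℕ := fun a => ∑ z ∈ X, F (Function.update a l z) with hF1
    set F2 : (Fin M → Γ) → ℕ := fun a => ∑ y ∈ X, F1 (Function.update a j y) with hF2
    set F3 : (Fin M → Γ) → ℕ := fun a => ∑ x ∈ X, F2 (Function.update a i x) with hF3
    have e1 : ∑ a ∈ T, F1 a = X.card * ∑ a ∈ T, F a := avg X l F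
    have e2 : ∑ a ∈ T, F2 a = X.card * ∑ a ∈ T, F1 a := avg X j F1
    have e3 : ∑ a ∈ T, F3 a = X.card * ∑ a ∈ T, F2 a := avg X i F2
    obtain ⟨a, haT, ha⟩ := exists_of_sum T F3 q (X.card ^ 3) hTne (by
      rw [e3, e2, e1]
      calc T.card * X.card ^ 3 ≤ (q * ∑ a ∈ T, F a) * X.card ^ 3 :=
            Nat.mul_le_mul_right _ (hzc.trans (Nat.mul_le_mul_left _ hFsum))
        _ = q * (X.card * (X.card * (X.card * ∑ a ∈ T, F a))) := by ring)
    set t : Γ := S ε a - ((ε i : SignType) : ℤ) • a i - ((ε j : SignType) : ℤ) • a j -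
      ((ε l : SignType) : ℤ) • a l with ht
    have hSup : ∀ x y z : Γ, S ε (Function.update (Function.update (Function.update a i x) j y) l z)
        = ((ε i : SignType) : ℤ) • x + ((ε j : SignType) : ℤ) • y + ((ε l : SignType) : ℤ) • z +
          t := by
      intro x y z
      rw [hS]
      simp only
      rw [sum_upd, sum_upd, sum_upd, Function.update_of_ne hjl.symm, Function.update_of_ne hil.symm,
        Function.update_of_ne hij.symm, ht, hS]
      abel
    have hF3c : F3 a = (((X ×ˢ X) ×ˢ X).filter (fun p =>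
        ((ε i : SignType) : ℤ) • p.1.1 + ((ε j : SignType) : ℤ) • p.1.2 +
          ((ε l : SignType) : ℤ) • p.2 + t ∈ X)).card := by
      rw [card_filter, Finset.sum_product, Finset.sum_product]
      rw [hF3]
      simp only [hF2, hF1, hF, hSup]
    have hle : F3 a ≤ (((X ×ˢ X) ×ˢ X).filter (fun p => p.1.1 + p.1.2 + p.2 + t ∈ X)).card := by
      rw [hF3c]
      refine Finset.card_le_card_of_injOn (fun p => ((((ε i : SignType) : ℤ) • p.1.1,
        ((ε j : SignType) : ℤ) • p.1.2), ((ε l : SignType) : ℤ) • p.2)) ?_ ?_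
      · intro p hp
        simp only [coe_filter, mem_product, Set.mem_ofPred_eq] at hp ⊢
        exact ⟨⟨⟨sgn_mem hXneg hi' hp.1.1.1, sgn_mem hXneg hj' hp.1.1.2⟩,
          sgn_mem hXneg hl' hp.1.2⟩, hp.2⟩
      · intro p _ p' _ hpp
        simp only [Prod.mk.injEq] at hpp
        obtain ⟨⟨h1, h2⟩, h3⟩ := hpp
        have g1 := sgn_sgn hi' p.1.1
        have g1' := sgn_sgn hi' p'.1.1
        have g2 := sgn_sgn hj' p.1.2
        have g2' := sgn_sgn hj' p'.1.2
        have g3 := sgn_sgn hl' p.2
        have g3' := sgn_sgn hl' p'.2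
        rw [h1, g1'] at g1
        rw [h2, g2'] at g2
        rw [h3, g3'] at g3
        exact Prod.ext (Prod.ext g1.symm g2.symm) g3.symm
    have hen := Pool.Agent.TH674.CG.energy X t q (ha.trans (Nat.mul_le_mul_left _ hle))
    obtain ⟨B, hBX, hBne, hBc, hBB⟩ := Pool.Agent.H217R3.AK.bsg X hne (q : ℝ)
      (by exact_mod_cast hq1) (by exact_mod_cast hen)
    have hBA : B ⊆ A := hBX.trans sdiff_subset
    obtain ⟨g, hg⟩ := id hBne
    have hBc' : X.card ≤ 8 * q * B.card := by exact_mod_cast hBc
    refine ⟨B, B, g, hBX, hBne, hBc'.trans (Nat.mul_le_mul_right _ (by omega)), hBA, hBne, ?_, ?_⟩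
    · have h1 : (B - B).card ≤ 2 ^ 22 * q ^ 10 * B.card := by exact_mod_cast hBB
      exact h1.trans (Nat.mul_le_mul_right _ (by omega))
    · intro b hb
      have h1 : b - g ∈ ks 1 (B - B) := by
        show b - g ∈ ks 0 (B - B) + (B - B)
        show b - g ∈ ({0} : Finset Γ) + (B - B)
        have h2 := Finset.add_mem_add (mem_singleton_self (0 : Γ)) (Finset.sub_mem_sub hb hg)
        simpa using h2
      exact ks_mono (zero_mem_diff hBne) (by omega) h1

end Pool.Agent.TH720.CG
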